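import Pool.Agent.H72.KzC

set_option autoImplicit false
set_option linter.unusedVariables false
set_option linter.unusedSimpArgs false
set_option linter.unnecessarySeqFocus false

namespace Pool.Agent.Results.MP_0b1547_co.NonReal

open Pool.Agent.H72.KzDef Pool.Agent.H72.Kz MvPolynomial

section defs
variable {E : Type}

/-- The maximal elements of `𝒢 ∩ [∅, F]`. -/
abbrev MaxIn (𝒢 : Finset (Set E)) (F : Set E) : Type :=
  {G : Set E // Maximal (fun H => H ∈ 𝒢 ∧ H ⊆ F) G}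

/-- `H` is a point of the product of the intervals `[∅, G]`, `G` maximal in `𝒢 ∩ [∅, F]`. -/
def Adm (M : Matroid E) {𝒢 : Finset (Set E)} {F : Set E} (H : MaxIn 𝒢 F → Set E) : Prop :=
  ∀ G, M.IsFlat (H G) ∧ H G ⊆ G.1

/-- The join of a family of flats. -/
def join (M : Matroid E) {ι : Type} (H : ι → Set E) : Set E := M.closure (⋃ i, H i)

/-- Building sets: the join map from the product of intervals to `[∅, F]` is a poset isomorphism
(an order embedding onto the flats contained in `F`). -/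
structure Building (M : Matroid E) (𝒢 : Finset (Set E)) : Prop where
  flat : ∀ G ∈ 𝒢, M.IsFlat G ∧ G.Nonempty
  emb : ∀ F, M.IsFlat F → F.Nonempty → ∀ H H' : MaxIn 𝒢 F → Set E, Adm M H → Adm M H' →
    (join M H ⊆ join M H' ↔ ∀ G, H G ⊆ H' G)
  onto : ∀ F, M.IsFlat F → F.Nonempty → ∀ K, M.IsFlat K → K ⊆ F →
    ∃ H : MaxIn 𝒢 F → Set E, Adm M H ∧ join M H = K

/-- Nested sets. -/
def Nested (M : Matroid E) (𝒢 : Finset (Set E)) (S : Finset 𝒢) : Prop :=
  ∀ T ⊆ S, 2 ≤ T.card → (∀ G ∈ T, ∀ H ∈ T, G.1 ⊆ H.1 → G = H) → join M (fun G : T => G.1.1) ∉ 𝒢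

/-- Atoms of the lattice of flats of a loopless matroid. -/
def Atom (M : Matroid E) (a : Set E) : Prop := Minimal (fun F => M.IsFlat F ∧ F.Nonempty) a

open Classical in
/-- The sum of the `x G` over `G ⊇ a`. -/
noncomputable def linRel (𝒢 : Finset (Set E)) (a : Set E) : MvPolynomial 𝒢 ℚ :=
  ∑ G : 𝒢, if a ⊆ G.1 then X G else 0

/-- The defining ideal. -/
noncomputable def chowIdeal (M : Matroid E) (𝒢 : Finset (Set E)) : Ideal (MvPolynomial 𝒢 ℚ) :=
  Ideal.span ({p | ∃ S, ¬ Nested M 𝒢 S ∧ p = ∏ G ∈ S, X G} ∪ {p | ∃ a, Atom M a ∧ p = linRel 𝒢 a})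

/-- The Chow ring `D(M, 𝒢)`. -/
abbrev Chow (M : Matroid E) (𝒢 : Finset (Set E)) : Type := MvPolynomial 𝒢 ℚ ⧸ chowIdeal M 𝒢

/-- Its degree `n` part. -/
noncomputable def piece (M : Matroid E) (𝒢 : Finset (Set E)) (n : ℕ) : Submodule ℚ (Chow M 𝒢) :=
  (homogeneousSubmodule 𝒢 ℚ n).map (Ideal.Quotient.mkₐ ℚ (chowIdeal M 𝒢)).toLinearMap

/-- The dimension of a subspace. -/
noncomputable def dim {A : Type} [CommRing A] [Algebra ℚ A] (V : Submodule ℚ A) : ℕ :=
  Module.finrank ℚ V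

/-- The dimension of the degree `n` part. -/
noncomputable def hilb (M : Matroid E) (𝒢 : Finset (Set E)) (n : ℕ) : ℕ := dim (piece M 𝒢 n)

end defs

def bit (i : Fin 18) (a : Fin 7) : Prop :=
  ([1, 2, 4, 8, 16, 32, 64, 3, 24, 65, 67, 27, 83, 31, 91, 95, 123, 127].getD i 0).testBit a = true

instance (i : Fin 18) (a : Fin 7) : Decidable (bit i a) := inferInstanceAs (Decidable (_ = true))

def gs (i : Fin 18) : Set (Fin 7) := {a | bit i a}

theorem F1 : ∀ i j, (∀ a, bit i a ↔ bit j a) → i = j := by decide +kernel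
theorem F2 : ∀ i, ∃ a, bit i a := by decide +kernel
theorem F3 : ∀ a, ∃ i, ∀ b, bit i b ↔ b = a := by decide +kernel
theorem F4 : ∀ i j, (∃ a, bit i a ∧ bit j a) → ∃ l, ∀ a, bit l a ↔ bit i a ∨ bit j a := by
  decide +kernel
theorem F5 : ∀ i, (∃ a, ∀ b, bit i b ↔ b = a) ∨
    ∃ j < i, ∃ l < i, ∀ a, bit i a ↔ bit j a ∨ bit l a := by decide +kernel
theorem F6 : ∀ i j, (∃ l, ∀ a, bit l a ↔ bit i a ∨ bit j a) → (∀ a, bit i a → bit j a) ∨
    (∀ a, bit j a → bit i a) ∨ (i, j) ∈ NN ∨ (j, i) ∈ NN := by decide +kernel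
theorem F7 : ∀ p ∈ NN, (∃ l, ∀ a, bit l a ↔ bit p.1 a ∨ bit p.2 a) ∧ (¬ ∀ a, bit p.1 a → bit p.2 a) ∧
    ¬ ∀ a, bit p.2 a → bit p.1 a := by decide +kernel

theorem gs_inj : Function.Injective gs := fun i j h => F1 i j fun a => Set.ext_iff.1 h a

def GG : Finset (Set (Fin 7)) := Finset.univ.map ⟨gs, gs_inj⟩

theorem mem_GG {G : Set (Fin 7)} : G ∈ GG ↔ ∃ i, gs i = G := by simp [GG]

noncomputable def eG : Fin 18 ≃ GG := Equiv.ofBijective (fun i => ⟨gs i, mem_GG.2 ⟨i, rfl⟩⟩)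
  ⟨fun i j h => gs_inj (congrArg Subtype.val h), fun G => by
    obtain ⟨i, hi⟩ := mem_GG.1 G.2
    exact ⟨i, Subtype.ext hi⟩⟩

theorem eG_val (i : Fin 18) : (eG i).1 = gs i := rfl

abbrev MM : Matroid (Fin 7) := Matroid.freeOn Set.univ

theorem flat (F : Set (Fin 7)) : MM.IsFlat F := by
  rw [Matroid.isFlat_iff_closure_eq]; simp

theorem join_eq {ι : Type} (H : ι → Set (Fin 7)) : join MM H = ⋃ i, H i := by simp [join]

theorem union_mem {G H : Set (Fin 7)} (hG : G ∈ GG) (hH : H ∈ GG) {a : Fin 7} (h1 : a ∈ G) (h2 : a ∈ H) :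
    G ∪ H ∈ GG := by
  obtain ⟨i, rfl⟩ := mem_GG.1 hG
  obtain ⟨j, rfl⟩ := mem_GG.1 hH
  obtain ⟨l, hl⟩ := F4 i j ⟨a, h1, h2⟩
  exact mem_GG.2 ⟨l, Set.ext hl⟩

theorem nonempty {G : Set (Fin 7)} (hG : G ∈ GG) : G.Nonempty := by
  obtain ⟨i, rfl⟩ := mem_GG.1 hG
  exact F2 i

theorem building : Building MM GG := by
  have disj : ∀ F (G G' : MaxIn GG F) a, a ∈ G.1 → a ∈ G'.1 → G = G' := fun F G G' a h h' => by
    have hu : G.1 ∪ G'.1 ∈ GG ∧ G.1 ∪ G'.1 ⊆ F :=
      ⟨union_mem G.2.1.1 G'.2.1.1 h h', Set.union_subset G.2.1.2 G'.2.1.2⟩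
    exact Subtype.ext (Set.Subset.antisymm
      (Set.subset_union_left.trans (G'.2.2 hu Set.subset_union_right))
      (Set.subset_union_right.trans (G.2.2 hu Set.subset_union_left)))
  refine ⟨fun G hG => ⟨flat G, nonempty hG⟩, fun F _ _ H H' h h' => ?_, fun F _ _ K _ hK => ?_⟩
  · rw [join_eq, join_eq]
    refine ⟨fun hs G a ha => ?_, fun hs => Set.iUnion_mono hs⟩
    obtain ⟨G', hG'⟩ := Set.mem_iUnion.1 (hs (Set.mem_iUnion.2 ⟨G, ha⟩))
    rw [disj F G G' a ((h G).2 ha) ((h' G').2 hG')]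
    exact hG'
  · refine ⟨fun G => K ∩ G.1, fun G => ⟨flat _, Set.inter_subset_right⟩, ?_⟩
    rw [join_eq]
    refine Set.Subset.antisymm (Set.iUnion_subset fun G => Set.inter_subset_left) fun a ha => ?_
    obtain ⟨i, hi⟩ := F3 a
    obtain ⟨G, h1, h2⟩ := Finite.exists_le_maximal (p := fun H => H ∈ GG ∧ H ⊆ F) (a := gs i)
      ⟨mem_GG.2 ⟨i, rfl⟩, fun b hb => ((hi b).1 hb) ▸ hK ha⟩
    exact Set.mem_iUnion.2 ⟨⟨G, h2⟩, ha, h1 ((hi a).2 rfl)⟩

theorem atom_iff (a : Set (Fin 7)) : Atom MM a ↔ ∃ b, a = {b} := by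
  constructor
  · intro h
    obtain ⟨b, hb⟩ := h.1.2
    exact ⟨b, Set.Subset.antisymm (h.2 ⟨flat _, Set.singleton_nonempty b⟩ (Set.singleton_subset_iff.2 hb))
      (Set.singleton_subset_iff.2 hb)⟩
  · rintro ⟨b, rfl⟩
    refine ⟨⟨flat _, Set.singleton_nonempty b⟩, fun F hF h => ?_⟩
    obtain ⟨c, hc⟩ := hF.2
    obtain rfl : c = b := h hc
    exact Set.singleton_subset_iff.2 hc

theorem flag (S : Finset GG) (h : ¬ Nested MM GG S) :
    ∃ p ∈ NN, eG p.1 ∈ S ∧ eG p.2 ∈ S ∧ eG p.1 ≠ eG p.2 := by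
  simp only [Nested, not_forall, not_not] at h
  obtain ⟨T, hT, h2, hanti, hU⟩ := h
  by_contra hn
  have pair : ∀ G ∈ T, ∀ H ∈ T, G.1 ∪ H.1 ∈ GG → G = H := fun G hG H hH hu => by
    by_contra hne
    obtain ⟨i, rfl⟩ := eG.surjective G
    obtain ⟨j, rfl⟩ := eG.surjective H
    obtain ⟨l, hl⟩ := mem_GG.1 hu
    rcases F6 i j ⟨l, Set.ext_iff.1 hl⟩ with h | h | h | h
    · exact hne (hanti _ hG _ hH h)
    · exact hne (hanti _ hH _ hG h).symm
    · exact hn ⟨_, h, hT hG, hT hH, hne⟩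
    · exact hn ⟨_, h, hT hH, hT hG, Ne.symm hne⟩
  rw [join_eq] at hU
  have key : ∀ i, gs i ⊆ ⋃ G : T, G.1.1 → ∃ G ∈ T, gs i ⊆ G.1 := by
    intro i
    induction i using WellFoundedLT.induction with
    | ind i ih =>
      intro hi
      rcases F5 i with ⟨a, ha⟩ | ⟨j, hj, l, hl, e⟩
      · obtain ⟨G, hG⟩ := Set.mem_iUnion.1 (hi ((ha a).2 rfl))
        exact ⟨G.1, G.2, fun b hb => ((ha b).1 hb) ▸ hG⟩
      · have e' : gs i = gs j ∪ gs l := Set.ext e
        obtain ⟨B1, h1, s1⟩ := ih j hj ((e' ▸ Set.subset_union_left).trans hi)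
        obtain ⟨B2, h2, s2⟩ := ih l hl ((e' ▸ Set.subset_union_right).trans hi)
        obtain ⟨a, ha⟩ := F2 j
        obtain ⟨b, hb⟩ := F2 l
        have u1 := union_mem B1.2 (mem_GG.2 ⟨i, rfl⟩) (s1 ha) ((e a).2 (Or.inl ha))
        have u2 := union_mem u1 B2.2 (Or.inr ((e b).2 (Or.inr hb))) (s2 hb)
        have u3 : B1.1 ∪ gs i ∪ B2.1 = B1.1 ∪ B2.1 := by
          rw [e']
          exact Set.Subset.antisymm (Set.union_subset (Set.union_subset Set.subset_union_left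
            (Set.union_subset_union s1 s2)) Set.subset_union_right)
            (Set.union_subset_union_left _ Set.subset_union_left)
        obtain rfl := pair B1 h1 B2 h2 (u3 ▸ u2)
        exact ⟨B1, h1, e' ▸ Set.union_subset s1 s2⟩
  obtain ⟨i, hi⟩ := mem_GG.1 hU
  obtain ⟨B, hB, hs⟩ := key i hi.subset
  obtain ⟨C, hC, hne⟩ := Finset.exists_mem_ne (by omega : 1 < T.card) B
  exact hne (hanti C hC B hB ((hi ▸ Set.subset_iUnion (fun G : T => G.1.1) ⟨C, hC⟩).trans hs))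

theorem aeval_lin {R : Type} [CommRing R] [Algebra ℚ R] (x : Fin 18 → R) (b : Fin 7) :
    aeval (fun G => x (eG.symm G)) (linRel GG {b}) = ∑ i, if bit i b then x i else 0 := by
  rw [linRel, map_sum, ← eG.sum_comp]
  refine Finset.sum_congr rfl fun i _ => ?_
  have : ({b} : Set (Fin 7)) ⊆ (eG i).1 ↔ bit i b := Set.singleton_subset_iff
  by_cases h : bit i b <;> simp [this, h]

theorem lin_iff {R : Type} [CommRing R] (x : Fin 18 → R) :
    (∀ b, (∑ i, if bit i b then x i else 0) = 0) ↔ XY (YX x) = x := by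
  simp only [Fin.forall_fin_succ, IsEmpty.forall_iff, and_true, Fin.sum_univ_succ, funext_iff,
    Finset.univ_eq_empty, Finset.sum_empty]
  simp (config := {decide := true}) only [XY, YX, Matrix.cons_val, Matrix.cons_val_zero,
    Matrix.cons_val_succ, Fin.succ_zero_eq_one, Fin.succ_one_eq_two, Fin.reduceSucc, if_true, if_false,
    add_zero, zero_add]
  constructor
  · rintro ⟨h0, h1, h2, h3, h4, h5, h6⟩
    refine ⟨?_, ?_, ?_, ?_, ?_, ?_, ?_, ?_, ?_, ?_, ?_, ?_, ?_, ?_, ?_, ?_, ?_, ?_⟩ <;> grind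
  · rintro ⟨h0, h1, h2, h3, h4, h5, h6, h7, h8, h9, h10, h11, h12, h13, h14, h15, h16, h17⟩
    refine ⟨?_, ?_, ?_, ?_, ?_, ?_, ?_⟩ <;> grind

noncomputable def xx (i : Fin 18) : Chow MM GG := Ideal.Quotient.mk _ (X (eG i))

theorem mk_eq (p : MvPolynomial GG ℚ) :
    Ideal.Quotient.mk (chowIdeal MM GG) p = aeval (fun G => xx (eG.symm G)) p := by
  have : Ideal.Quotient.mkₐ ℚ (chowIdeal MM GG) = aeval (fun G => xx (eG.symm G)) := by
    ext G; simp [xx]
  exact DFunLike.congr_fun this p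

theorem xx_lin : XY (YX xx) = xx := (lin_iff xx).1 fun b => by
  rw [← aeval_lin, ← mk_eq, Ideal.Quotient.eq_zero_iff_mem]
  exact Ideal.subset_span (Or.inr ⟨{b}, (atom_iff _).2 ⟨b, rfl⟩, rfl⟩)

theorem xx_quad : QR xx := fun p hp => by
  classical
  obtain ⟨⟨l, hl⟩, h1, h2⟩ := F7 p hp
  have hne : eG p.1 ≠ eG p.2 := fun e => h1 fun a ha => by rwa [← eG.injective e]
  rw [xx, xx, ← map_mul, Ideal.Quotient.eq_zero_iff_mem]
  refine Ideal.subset_span (Or.inl ⟨{eG p.1, eG p.2}, fun hN => ?_, by rw [Finset.prod_pair hne]⟩)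
  refine hN _ le_rfl (by rw [Finset.card_pair hne]) (fun G hG H hH hs => ?_) ?_
  · simp only [Finset.mem_insert, Finset.mem_singleton] at hG hH
    rcases hG with rfl | rfl <;> rcases hH with rfl | rfl
    · rfl
    · exact absurd hs h1
    · exact absurd hs h2
    · rfl
  · rw [join_eq]
    refine mem_GG.2 ⟨l, Set.ext fun a => (hl a).trans ?_⟩
    simp only [Set.mem_iUnion, Subtype.exists, Finset.mem_insert, Finset.mem_singleton, exists_prop,
      exists_eq_or_imp, exists_eq_left]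
    rfl

theorem span_eq : Submodule.span ℚ (Set.range (YX xx)) = Submodule.span ℚ (Set.range xx) := by
  apply le_antisymm <;> rw [Submodule.span_le]
  · have m : ∀ i, xx i ∈ Submodule.span ℚ (Set.range xx) := fun i => Submodule.subset_span ⟨i, rfl⟩
    rintro _ ⟨a, rfl⟩
    fin_cases a <;> simp only [YX, Fin.zero_eta, Fin.mk_one, Fin.reduceFinMk, Matrix.cons_val,
      SetLike.mem_coe] <;> apply_rules [add_mem]
  · have m : ∀ i, YX xx i ∈ Submodule.span ℚ (Set.range (YX xx)) :=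
      fun i => Submodule.subset_span ⟨i, rfl⟩
    rintro _ ⟨a, rfl⟩
    rw [← congrFun xx_lin a]
    generalize YX xx = y at m ⊢
    fin_cases a <;> simp only [XY, Fin.zero_eta, Fin.mk_one, Fin.reduceFinMk, Matrix.cons_val,
      SetLike.mem_coe] <;> apply_rules [add_mem, sub_mem, neg_mem]

theorem piece_eq (n : ℕ) : piece MM GG n = Submodule.span ℚ (Set.range (YX xx)) ^ n := by
  rw [piece, ← homogeneousSubmodule_one_pow, Submodule.map_pow, homogeneousSubmodule_one_eq_span_X,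
    Submodule.map_span, span_eq, ← Set.range_comp, ← eG.surjective.range_comp]
  rfl

theorem chow_gb : GB ℚ (YX xx) MonomialOrder.lex forb := by
  classical
  obtain ⟨R, _, _, z, ι, hz, hι⟩ := model
  have hq := QR_of hz
  have hI : ∀ p ∈ chowIdeal MM GG, aeval (fun G => XY z (eG.symm G)) p = 0 := by
    intro p hp
    refine (Ideal.span_le (I := RingHom.ker (aeval fun G => XY z (eG.symm G)))).2 ?_ hp
    rintro _ (⟨S, hS, rfl⟩ | ⟨a, ha, rfl⟩)
    · obtain ⟨p, hp, h1, h2, h3⟩ := flag S hS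
      show aeval _ _ = 0
      rw [← Finset.mul_prod_erase _ _ h1, ← Finset.mul_prod_erase _ _ (Finset.mem_erase.2 ⟨h3.symm, h2⟩),
        ← mul_assoc, map_mul, map_mul, aeval_X, aeval_X, Equiv.symm_apply_apply, Equiv.symm_apply_apply,
        hq p hp, zero_mul]
    · obtain ⟨b, rfl⟩ := (atom_iff a).1 ha
      show aeval _ _ = 0
      rw [aeval_lin]
      exact (lin_iff _).2 (by rw [YX_XY]) b
  let ψ := Ideal.Quotient.liftₐ (chowIdeal MM GG) (aeval fun G => XY z (eG.symm G)) hI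
  have hψ : ∀ i, ψ (xx i) = XY z i := fun i => by simp [ψ, xx]
  refine gb (GR_of (xx_lin.symm ▸ xx_quad)) (ι.comp ψ) (fun a => ?_) ?_
  · have : ψ (YX xx a) = YX (XY z) a := by
      fin_cases a <;> simp only [YX, Fin.zero_eta, Fin.mk_one, Fin.reduceFinMk, Matrix.cons_val, map_add, hψ]
    rw [AlgHom.comp_apply, this, YX_XY, hι]
  · rw [← Algebra.adjoin_span, span_eq, Algebra.adjoin_span, eq_top_iff]
    rintro a -
    obtain ⟨p, rfl⟩ := Ideal.Quotient.mk_surjective a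
    rw [mk_eq]
    induction p using MvPolynomial.induction_on with
    | C r => rw [aeval_C]; exact Subalgebra.algebraMap_mem _ _
    | add p q hp hq => rw [map_add]; exact add_mem hp hq
    | mul_X p G hp => rw [map_mul, aeval_X]; exact mul_mem hp (Algebra.subset_adjoin ⟨_, rfl⟩)

theorem result : ∃ (E : Type) (_ : Finite E) (M : Matroid E) (𝒢 : Finset (Set E)),
    M.Loopless ∧ Building M 𝒢 ∧ Koszul ℚ (Chow M 𝒢) (piece M 𝒢 1) ∧
    ∃ H : Polynomial ℂ, (∀ n, H.coeff n = hilb M 𝒢 n) ∧ H ≠ 0 ∧ ∃ z : ℂ, H.IsRoot z ∧ z.im ≠ 0 := by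
  obtain ⟨z, hz, hz'⟩ := nonreal
  refine ⟨Fin 7, inferInstance, MM, GG, ⟨by simp [Matroid.loops]⟩, building, ?_,
    ∑ i ∈ Finset.range 7, Polynomial.monomial i (([1, 11, 39, 59, 39, 11, 1].getD i 0 : ℕ) : ℂ),
    fun n => ?_, fun h => ?_, z, ?_, hz⟩
  · rw [piece_eq, Submodule.pow_one]; exact koszul chow_gb
  · rw [hilb, piece_eq, dim, Pool.Agent.H72.Kz.hilb chow_gb, Polynomial.finsetSum_coeff]
    simp only [Polynomial.coeff_monomial, Finset.sum_ite_eq', Finset.mem_range]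
    split_ifs with h
    · rfl
    · rw [List.getD_eq_default _ _ (by simp; omega)]; simp
  · have := congrArg (Polynomial.eval 0) h
    simp [Finset.sum_range_succ] at this
  · rw [Polynomial.IsRoot, ← hz']
    simp [Finset.sum_range_succ]

end Pool.Agent.Results.MP_0b1547_co.NonReal
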